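import Pool.Agent.Helper81.Sus2.Goals2
import Pool.Agent.Helper28.Sus.Fin

/-!
# Sustained complexity of the memory: the final theorem from its parts
-/

namespace Pool.Agent.Helper28.Sus2

open Pool.Agent.Helper65.LinSpace Pool.Agent.Helper78.Mpc Pool.Agent.Helper28.Ram Finset Filter
open Pool.Agent.Helper28.Long (ZL)
open Pool.Agent.Helper81.Tok3 (gH CH Par LSM Sim)
open Pool.Agent.Helper81.Sus2
open Pool.Agent.Helper28.Sus (gf mgf chs rc macro_sound macro_complete lt_ne ev_cod)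

/-! ### The machine -/

/-- The machine on numbers with the parameters of the simulation. -/
def mach (P : Prm) (g h c d Y τ a : ℕ) : Pool.Agent.Helper81.Tok3.Mach where
  σ := P.V + 1
  a := P.Z + 1
  b := g / (P.V + 1)
  G := g
  h := h
  A := P.wA τ a
  N := P.wN τ Y d a
  Q := P.wQ
  W := P.wW
  q0 := P.w0 c
  M0 := P.cm c

/-- The conditions for the simulation. -/
structure Adm (n h : ℕ) (P : Prm) : Prop where
  h1 : P.V + 1 ≤ gH n h
  h2 : (P.V + 2) * h ≤ gH n h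
  h3 : P.Z + 1 ≤ gH n h * gH n h

theorem ok_mach {n h : ℕ} {P : Prm} (hP : Adm n h P) (c d Y τ a : ℕ) :
    (mach P (gH n h) h c d Y τ a).Ok := by
  refine ⟨Nat.succ_pos _, Nat.div_pos hP.h1 (Nat.succ_pos _), ?_, ?_, ?_, ?_, ?_⟩
  · intro q
    exact capN_lt _ _
  · intro q v
    exact capN_lt _ _
  · intro q v f
    exact capN_lt _ _
  · exact capN_lt _ _
  · intro a
    exact capN_lt _ _

theorem par_mach {n h : ℕ} {P : Prm} (hP : Adm n h P) (c d Y τ a : ℕ) :
    Par n (mach P (gH n h) h c d Y τ a) :=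
  ⟨hP.h1, hP.h2, rfl, rfl, hP.h3⟩

/-- The simulation. -/
noncomputable def FF (Q : Sim) (n h : ℕ) (P : Prm) (c d Y τ a : ℕ) : ℕ :=
  Q.sim n (mach P (gH n h) h c d Y τ a)

theorem FF_eq (Q : Sim) {n h : ℕ} {P : Prm} (hP : Adm n h P) (c d Y τ a : ℕ) :
    FF Q n h P c d Y τ a = (mgf (P.wA τ a) (P.wN τ Y d a) P.wQ P.wW h (P.w0 c) (P.cm c)
      (gH n h * (gH n h * (gH n h / (P.V + 1))))).1 :=
  Q.eq _ _ (ok_mach hP _ _ _ _ _) (par_mach hP _ _ _ _ _)

theorem FF_sound (Q : Sim) (hSIL : SIL_stmt) {n h : ℕ} {P : Prm} (hP : Adm n h P)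
    {c d Y τ a : ℕ} (hF : FF Q n h P c d Y τ a = 1) : ∃ T, (P.wf τ Y c d a T).1 = 1 := by
  rw [FF_eq Q hP] at hF
  obtain ⟨t, ht⟩ := macro_sound (A := P.wA τ a) (N := P.wN τ Y d a) (W := P.wW) (Q := P.wQ)
    (q := P.w0 c) (M := P.cm c) (hSIL P τ Y c d a).1 h
    (gH n h * (gH n h * (gH n h / (P.V + 1))))
  rw [ht] at hF
  exact ⟨t, hF⟩

theorem FF_complete (Q : Sim) (hSIL : SIL_stmt) {n h : ℕ} {P : Prm} (hP : Adm n h P)
    {c d Y τ a x : ℕ} (h1 : ∀ T, τ < T → (P.wf τ Y c d a T).1 = 1) (h2 : τ ≤ 2 ^ h * (x + 1))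
    (h3 : chs (P.wA τ a) (P.wN τ Y d a) P.wQ P.wW (P.w0 c) (P.cm c) (τ + 1) ≤ x)
    (h4 : 2 * (x + 1) + 1 ≤ gH n h * (gH n h * (gH n h / (P.V + 1)))) :
    FF Q n h P c d Y τ a = 1 := by
  rw [FF_eq Q hP]
  have hpos : 1 ≤ 2 ^ h := Nat.one_le_two_pow
  refine macro_complete (A := P.wA τ a) (N := P.wN τ Y d a) (W := P.wW) (Q := P.wQ)
    (q := P.w0 c) (M := P.cm c) (hSIL P τ Y c d a).1 (acc := fun q => q = 1)
    (fun t ht => (hSIL P τ Y c d a).2 t ht) (h := h) (r := τ + 1) (x := x + 1)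
    (h1 (τ + 1) (Nat.lt_succ_self τ)) (h3.trans (Nat.le_succ x)) ?_ _ h4
  calc τ + 1 ≤ 2 ^ h * (x + 1) + 2 ^ h := by omega
    _ = 2 ^ h * (x + 1 + 1) := by ring

/-! ### The simulation of the whole computation -/

/-- The reduced bound `h`. -/
def hT (c n T : ℕ) : ℕ := gT c n T * dig (bs c n) T 2

/-- The reduced bound `k`. -/
def kT (c n T : ℕ) : ℕ := gT c n T * dig (bs c n) T 3

/-- The simulation: not `0` if the machine with the code `e` accepts, with the bounds coded by `T`. -/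
noncomputable def acc (Q : Sim) (c e x y T : ℕ) : ℕ :=
  gT c (Nat.log 2 x) T * (lt01 0 ((prm c e x y T).cq 1) *
    rc (edge (prm c e x y T) (FF Q (Nat.log 2 x) (hT c (Nat.log 2 x) T) (prm c e x y T)))
      (prm c e x y T).cz (kT c (Nat.log 2 x) T) 1 0)

/-- The number of codes of bounds. -/
def NF (c x : ℕ) : ℕ := (bs c (Nat.log 2 x)) ^ 5

theorem LS.NF (c : ℕ) : LS (Sus2.NF c) := by
  unfold Sus2.NF bs
  exact (LS.mul (LS.const (c + 1)) (LS.add (LS.log2 (by fun_prop)) (LS.const 2))).pow_const 5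

theorem adm_prm (hPRM : PRM_stmt) (c e x y T : ℕ) :
    Adm (Nat.log 2 x) (hT c (Nat.log 2 x) T) (prm c e x y T) := by
  obtain ⟨h1, h2, h3, _⟩ := hPRM.2.2 c e x y T
  exact ⟨h1, h2, h3⟩

theorem LS.bs {α : Type} [Ctx α] (c : ℕ) {n : α → ℕ} (hn : LS n) :
    LS (fun z => bs c (n z)) := by
  unfold Pool.Agent.Helper81.Sus2.bs
  exact LS.mul (LS.const (c + 1)) (LS.add hn (LS.const 2))

theorem LS.acc (Q : Sim) (hLSW : LSW_stmt) (hLSE : LSE_stmt) (hPRM : PRM_stmt) (c : ℕ) :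
    LS (fun z : ℕ × ℕ × ℕ × ℕ => acc Q c z.1 z.2.1 z.2.2.1 z.2.2.2) := by
  have he : LS (fun z : ℕ × ℕ × ℕ × ℕ => z.1) := by fun_prop
  have hx : LS (fun z : ℕ × ℕ × ℕ × ℕ => z.2.1) := by fun_prop
  have hy : LS (fun z : ℕ × ℕ × ℕ × ℕ => z.2.2.1) := by fun_prop
  have hT' : LS (fun z : ℕ × ℕ × ℕ × ℕ => z.2.2.2) := by fun_prop
  have hn : LS (fun z : ℕ × ℕ × ℕ × ℕ => Nat.log 2 z.2.1) := by fun_prop
  obtain ⟨h1, h2, h3⟩ := hPRM.1 _ c _ _ _ _ he hx hy hT'
  have hLh : LS (fun z : ℕ × ℕ × ℕ × ℕ => hT c (Nat.log 2 z.2.1) z.2.2.2) := by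
    unfold hT
    exact LS.mul h2 (LS.dig (LS.bs c hn) hT' (LS.const 2))
  have hLk : LS (fun z : ℕ × ℕ × ℕ × ℕ => kT c (Nat.log 2 z.2.1) z.2.2.2) := by
    unfold kT
    exact LS.mul h2 (LS.dig (LS.bs c hn) hT' (LS.const 3))
  have hC : LS (fun z : ℕ × ℕ × ℕ × ℕ => CS c z.2.1) := h1.hC
  -- the simulation
  have hF : LS (fun z : (ℕ × ℕ × ℕ × ℕ) × ℕ × ℕ × ℕ × ℕ × ℕ =>
      FF Q (Nat.log 2 z.1.2.1) (hT c (Nat.log 2 z.1.2.1) z.1.2.2.2)
        (prm c z.1.1 z.1.2.1 z.1.2.2.1 z.1.2.2.2) z.2.1 z.2.2.1 z.2.2.2.1 z.2.2.2.2.1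
        z.2.2.2.2.2) := by
    have he' : LS (fun z : (ℕ × ℕ × ℕ × ℕ) × ℕ × ℕ × ℕ × ℕ × ℕ => z.1.1) := by fun_prop
    have hx' : LS (fun z : (ℕ × ℕ × ℕ × ℕ) × ℕ × ℕ × ℕ × ℕ × ℕ => z.1.2.1) := by fun_prop
    have hy' : LS (fun z : (ℕ × ℕ × ℕ × ℕ) × ℕ × ℕ × ℕ × ℕ × ℕ => z.1.2.2.1) := by fun_prop
    have hT' : LS (fun z : (ℕ × ℕ × ℕ × ℕ) × ℕ × ℕ × ℕ × ℕ × ℕ => z.1.2.2.2) := by fun_prop
    have hn' : LS (fun z : (ℕ × ℕ × ℕ × ℕ) × ℕ × ℕ × ℕ × ℕ × ℕ => Nat.log 2 z.1.2.1) := by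
      fun_prop
    obtain ⟨g1, g2, g3⟩ := hPRM.1 _ c _ _ _ _ he' hx' hy' hT'
    obtain ⟨w1, w2, w3, w4, w5, w6, _⟩ := hLSW _ _ _
      (fun z : (ℕ × ℕ × ℕ × ℕ) × ℕ × ℕ × ℕ × ℕ × ℕ => z.2.1)
      (fun z => z.2.2.1) (fun z => z.2.2.2.1) (fun z => z.2.2.2.2.1) (fun z => z.2.2.2.2.2)
      g1 (by fun_prop) (by fun_prop) (by fun_prop) (by fun_prop) (by fun_prop)
    have hLh' : LS (fun z : (ℕ × ℕ × ℕ × ℕ) × ℕ × ℕ × ℕ × ℕ × ℕ =>
        hT c (Nat.log 2 z.1.2.1) z.1.2.2.2) := by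
      unfold hT
      exact LS.mul g2 (LS.dig (LS.bs c hn') hT' (LS.const 2))
    have hCH : LS (fun z : (ℕ × ℕ × ℕ × ℕ) × ℕ × ℕ × ℕ × ℕ × ℕ => CH z.1.2.1) := by
      unfold CH
      exact (LS.add hx' (LS.const 2)).pow_const 40000
    refine Q.ls hx' ?_ (fun z => par_mach (adm_prm hPRM _ _ _ _ _) _ _ _ _ _)
    exact ⟨LS.add g1.V (LS.const 1), LS.add g1.Z (LS.const 1),
      LS.div g3 (LS.add g1.V (LS.const 1)), g3, hLh', w1, w2, w3, w4, w5, w6, hCH,
      fun z => ok_mach (adm_prm hPRM _ _ _ _ _) _ _ _ _ _,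
      fun z => Q.nv _ _ (ok_mach (adm_prm hPRM _ _ _ _ _) _ _ _ _ _)
        (par_mach (adm_prm hPRM _ _ _ _ _) _ _ _ _ _),
      fun z => Q.sv _ _ (ok_mach (adm_prm hPRM _ _ _ _ _) _ _ _ _ _)
        (par_mach (adm_prm hPRM _ _ _ _ _) _ _ _ _ _)⟩
  have hE := hLSE _ _ _ h1 (fun z : ℕ × ℕ × ℕ × ℕ => FF Q (Nat.log 2 z.2.1)
    (hT c (Nat.log 2 z.2.1) z.2.2.2) (prm c z.1 z.2.1 z.2.2.1 z.2.2.2)) hF
  obtain ⟨_, _, _, _, _, _, w7⟩ := hLSW _ _ _
      (fun z : ℕ × ℕ × ℕ × ℕ => 0) (fun z => 0) (fun z => 0) (fun z => 0) (fun z => 0)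
      h1 (by fun_prop) (by fun_prop) (by fun_prop) (by fun_prop) (by fun_prop)
  have hq : LS (fun z : ℕ × ℕ × ℕ × ℕ => (prm c z.1 z.2.1 z.2.2.1 z.2.2.2).cq 1) := by
    refine LS.congr (LS.capN h1.S h1.st) fun z => ?_
    unfold Prm.cq
    rw [eq01, if_pos rfl, ifz_ne one_ne_zero]
  exact LS.mul h2 (LS.mul (LS.lt01 (LS.const 0) hq)
    (Pool.Agent.Helper28.Sus.LS.rc hE w7 hLk (LS.const 1) (LS.const 0) hC
      (fun z => hPRM.2.1 c _ _ _ _) (fun z => by omega) (fun z => by omega)))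

/-! ### Codes -/

theorem exists_cdeN (e : Cde) : ∃ N, cdeN N = e := by
  obtain ⟨eA, eN, eW, eK, eG, eR, eD, eX, ini, B0, st⟩ := e
  set B := eA + eN + eW + eK + eG + eR + eD + eX + ini + B0 + st + 1 with hB
  set f : ℕ → ℕ := fun i => if i = 0 then eA else if i = 1 then eN else if i = 2 then eW else
    if i = 3 then eK else if i = 4 then eG else if i = 5 then eR else if i = 6 then ini else
    if i = 7 then B0 else if i = 8 then st else if i = 9 then eD else eX with hf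
  have hlt : ∀ i < 11, f i < B := by
    intro i _
    simp only [hf]
    split_ifs <;> omega
  refine ⟨Nat.pair B (tab B 11 f), ?_⟩
  unfold cdeN
  simp only [Nat.unpair_pair]
  rw [dig_tab hlt (show 0 < 11 by omega), dig_tab hlt (show 1 < 11 by omega),
    dig_tab hlt (show 2 < 11 by omega), dig_tab hlt (show 3 < 11 by omega),
    dig_tab hlt (show 4 < 11 by omega), dig_tab hlt (show 5 < 11 by omega),
    dig_tab hlt (show 6 < 11 by omega), dig_tab hlt (show 7 < 11 by omega),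
    dig_tab hlt (show 8 < 11 by omega), dig_tab hlt (show 9 < 11 by omega),
    dig_tab hlt (show 10 < 11 by omega)]
  simp [hf]

/-! ### Soundness and completeness -/

theorem rep_start {A : NBM} {w y : List Bool} {P : Prm} (hP : Cod A w y P) (h : P.cq 1 ≠ 0) :
    Rep A w y P 1 (A.start, A.mem0 w y) := by
  have e1 : P.cq 1 = capN P.S (num A.start) := by
    unfold Prm.cq
    rw [eq01, if_pos rfl, ifz_ne one_ne_zero, hP.hst]
  refine Or.inr ⟨one_ne_zero, ?_, ?_, fun i _ => rfl, fun i _ hi => Or.inr ?_⟩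
  · rw [e1] at h ⊢
    exact (capN_ne h).symm
  · rw [e1] at h
    exact Pool.Agent.Helper11.Ram.capN_num_le h
  · have e2 : P.cl 1 (num i) = 1 := by
      unfold Prm.cl
      rw [eq01, if_pos rfl, ifz_ne one_ne_zero]
    have e3 : A.mem0 w y i = [] := by
      rcases i with _ | ⟨b, i⟩
      · rfl
      · cases b
        · exact absurd rfl hi
        · rfl
    rw [e2]
    show 1 = num (A.mem0 w y i)
    rw [e3]
    rfl

theorem sound (Q : Sim) (hSIL : SIL_stmt) (hEDS : EDS_stmt) (hRCS : RCS_stmt)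
    (hPRM : PRM_stmt) {A : NBM} {w y : List Bool} {c e T : ℕ}
    (hP : Cod A w y (prm c e (num w) (num y) T)) (h : acc Q c e (num w) (num y) T ≠ 0) :
    ∃ g r, A.AcceptsAt w y g r := by
  unfold acc at h
  have h1 := right_ne_zero_of_mul h
  have h2 := left_ne_zero_of_mul h1
  have h3 := right_ne_zero_of_mul h1
  have h4 : (prm c e (num w) (num y) T).cq 1 ≠ 0 := lt_ne.1 h2
  have h5 := (hPRM.2.2 c e (num w) (num y) T).2.2.2.1
  obtain ⟨g, t, ht⟩ := hRCS A (Rep A w y (prm c e (num w) (num y) T)) _ _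
    (hEDS A w y _ hP h5 (FF Q _ _ _) fun c' d Y τ a _ _ hF =>
      FF_sound Q hSIL (adm_prm hPRM c e (num w) (num y) T) hF) _ _ _ _ h3
    (rep_start hP h4)
  rcases ht with ⟨_, ht⟩ | ⟨h6, _⟩
  · exact ⟨g, t, ht⟩
  · exact absurd rfl h6

/-- Read-only registers are never changed. -/
theorem conf_ro (A : NBM) (w y : List Bool) (g : ℕ → Bool) {i : List Bool}
    (hi : i.head? = some false) (t : ℕ) : (A.conf w y g t).2 i = A.mem0 w y i := by
  induction t with
  | zero => rfl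
  | succ t ih =>
    show A.upd _ i ((A.conf w y g t).2 i) = _
    rw [ih]
    unfold NBM.upd
    rw [if_neg]
    rintro ⟨_, h⟩
    exact h hi

/-- The number of the configuration between two parts: `q` is the state, `D` the description. -/
def cn (P : Prm) (q D : List Bool) : ℕ := 2 + (num q + 2 ^ (P.S + 1) * num D)

section

variable {P : Prm} {q D : List Bool}

theorem num_lt_pow {v : List Bool} {k : ℕ} (h : v.length ≤ k) : num v < 2 ^ (k + 1) :=
  lt_of_lt_of_le (Pool.Agent.Helper78.Avg.num_lt v) (Nat.pow_le_pow_right (by omega) (by omega))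

theorem cn_ne : cn P q D ≠ 1 ∧ 2 ≤ cn P q D := by
  unfold cn
  omega

theorem cn_div (hq : q.length ≤ P.S) : (cn P q D - 2) / 2 ^ (P.S + 1) = num D := by
  unfold cn
  rw [Nat.add_sub_cancel_left, Nat.add_mul_div_left _ _ (by positivity),
    Nat.div_eq_of_lt (num_lt_pow hq), zero_add]

theorem cn_mod (hq : q.length ≤ P.S) : (cn P q D - 2) % 2 ^ (P.S + 1) = num q := by
  unfold cn
  rw [Nat.add_sub_cancel_left, Nat.add_mul_mod_self_left, Nat.mod_eq_of_lt (num_lt_pow hq)]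

theorem cn_lt (hq : q.length ≤ P.S) (hD : D.length ≤ P.z) : cn P q D < P.cz := by
  unfold Prm.cz cn
  have h0 := num_lt_pow hq
  have h1 : num q + 2 ^ (P.S + 1) * num D < 2 ^ (P.S + 1) * (num D + 1) := by
    rw [mul_add, mul_one]
    omega
  have h2 : 2 ^ (P.S + 1) * (num D + 1) ≤ 2 ^ (P.S + 1) * 2 ^ (P.z + 1) :=
    Nat.mul_le_mul_left _ (num_lt_pow hD)
  omega

theorem cn_cq (hq : q.length ≤ P.S) : P.cq (cn P q D) = num q := by
  unfold Prm.cq
  rw [eq01, if_neg cn_ne.1, ifz_zero, cn_mod hq]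

theorem cn_cl (hq : q.length ≤ P.S) (x : ℕ) : P.cl (cn P q D) x = capN P.Z (P.lk (num D) x) := by
  unfold Prm.cl
  rw [eq01, if_neg cn_ne.1, ifz_zero, cn_div hq]

theorem says_length {E : Decomp} {w y : List Bool} {a : ℕ} {D i v : List Bool}
    (h : E.Says w y a D i v) : v.length ≤ a := by
  obtain ⟨T, h1, h2, _⟩ := h
  have h3 := h2 T le_rfl
  rw [h1] at h3
  simp only [List.length_cons] at h3
  omega

/-- What is described. -/
theorem cl_says (hDEC : DEC_stmt) {E : Decomp} {w y : List Bool} (hE : CodE E P)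
    (hx : P.x = num w) (hy : P.y = num y) (hq : q.length ≤ P.S) {i v : List Bool}
    (h : E.Says w y P.Z D i v) : P.cl (cn P q D) (num i) = num v := by
  rw [cn_cl hq, (hDEC E w y P hE hx hy D i v).1 h]
  exact capN_num (says_length h)

theorem says_of_cl (hDEC : DEC_stmt) {E : Decomp} {w y : List Bool} (hE : CodE E P)
    (hx : P.x = num w) (hy : P.y = num y) (hq : q.length ≤ P.S) {i : List Bool}
    (h : P.cl (cn P q D) (num i) ≠ 0) : ∃ v, E.Says w y P.Z D i v := by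
  rw [cn_cl hq] at h
  have h1 := capN_ne h
  have h2 : P.lk (num D) (num i) ≠ 0 := by
    rw [← h1]
    exact h
  obtain ⟨v, hv⟩ := exists_num (Nat.pos_of_ne_zero h2)
  exact ⟨v, (hDEC E w y P hE hx hy D i v).2 hv.symm⟩

end

/-- The bounds of an accepting computation as natural numbers. -/
theorem complete (Q : Sim) (hSIL : SIL_stmt) (hDEC : DEC_stmt) (hEDC : EDC_stmt)
    (hRCC : RCC_stmt) (hPRM : PRM_stmt) {A : NBM} {E : Decomp} {w y : List Bool} {c e : ℕ}
    (hCod : ∀ T, Cod A w y (prm c e (num w) (num y) T))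
    (hCodE : ∀ T, CodE E (prm c e (num w) (num y) T))
    {g : ℕ → Bool} {r s a x h z k K : ℕ} {τ : ℕ → ℕ} {D : ℕ → List Bool}
    (hacc : A.AcceptsAt w y g r)
    (hfit : A.Fits w y g r s a) (hτ0 : τ 0 = 0) (hτK : τ K = r) (hK0 : 0 < K) (hK : K ≤ 2 ^ k)
    (hpart : ∀ i < K, τ i ≤ τ (i + 1) ∧ τ (i + 1) ≤ τ i + 2 ^ h * (x + 1) ∧
      A.msgs w y g (τ i) (τ (i + 1)) ≤ x ∧ A.guesses w y g (τ i) (τ (i + 1)) ≤ c * w.length ∧
      ∀ t, τ i ≤ t → t < τ (i + 1) →
        A.Known E w y g a (τ i) (D i) t (A.addr (A.conf w y g t).1))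
    (hdesc : ∀ i, 0 < i → i < K → (D i).length ≤ z ∧
      ∀ j v : List Bool, j.length ≤ s → j.head? ≠ some false → E.Says w y a (D i) j v →
        (A.conf w y g (τ i)).2 j = v ∧ A.Known E w y g a (τ (i - 1)) (D (i - 1)) (τ i) j)
    (q1 : gd c w.length s a h k z = 1) (q2 : s < bs c w.length) (q3 : a < bs c w.length)
    (q4 : h < bs c w.length) (q5 : k < bs c w.length) (q6 : z < bs c w.length)
    (q7 : 2 + 2 ^ (s + 1) * ((c * w.length + 1) * (2 ^ h * (x + 1) + 1)) ≤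
      2 ^ (s + h + 5 * ll w.length + 1))
    (q8 : 2 ^ h * (x + 1) < 2 ^ (s + h + 5 * ll w.length))
    (q9 : 2 * (x + 1) + 1 ≤ gH w.length h * (gH w.length h *
      (gH w.length h / (s + h + 5 * ll w.length + 1)))) :
    ∃ T < NF c (num w), acc Q c e (num w) (num y) T ≠ 0 := by
  classical
  set n := w.length with hn
  have hlog : Nat.log 2 (num w) = n := Pool.Agent.Helper65.LinSpace.log_num w
  set f : ℕ → ℕ := fun i => if i = 0 then s else if i = 1 then a else if i = 2 then h else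
    if i = 3 then k else z with hf
  have hlt : ∀ i < 5, f i < bs c n := by
    intro i _
    simp only [hf]
    split_ifs
    · exact q2
    · exact q3
    · exact q4
    · exact q5
    · exact q6
  set T := tab (bs c n) 5 f with hTd
  have d0 : dig (bs c n) T 0 = s := by
    rw [hTd, dig_tab hlt (by omega)]
    simp [hf]
  have d1 : dig (bs c n) T 1 = a := by
    rw [hTd, dig_tab hlt (by omega)]
    simp [hf]
  have d2 : dig (bs c n) T 2 = h := by
    rw [hTd, dig_tab hlt (by omega)]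
    simp [hf]
  have d3 : dig (bs c n) T 3 = k := by
    rw [hTd, dig_tab hlt (by omega)]
    simp [hf]
  have d4 : dig (bs c n) T 4 = z := by
    rw [hTd, dig_tab hlt (by omega)]
    simp [hf]
  have hgT : gT c n T = 1 := by
    unfold gT
    rw [d0, d1, d2, d3, d4, q1]
  have ehT : hT c n T = h := by
    unfold hT
    rw [hgT, d2, one_mul]
  have ekT : kT c n T = k := by
    unfold kT
    rw [hgT, d3, one_mul]
  have hP := hCod T
  have hE := hCodE T
  have hadm := adm_prm hPRM c e (num w) (num y) T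
  have h5 := (hPRM.2.2 c e (num w) (num y) T).2.2.2.1
  have hPx : (prm c e (num w) (num y) T).x = num w := rfl
  have hPy : (prm c e (num w) (num y) T).y = num y := rfl
  set P := prm c e (num w) (num y) T with hPdef
  have eS : P.S = s := by
    show gT c (Nat.log 2 (num w)) T * dig (bs c (Nat.log 2 (num w))) T 0 = s
    rw [hlog, hgT, d0, one_mul]
  have eZ : P.Z = a := by
    show gT c (Nat.log 2 (num w)) T * dig (bs c (Nat.log 2 (num w))) T 1 = a
    rw [hlog, hgT, d1, one_mul]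
  have eu : P.u = c * n := by
    show c * Nat.log 2 (num w) = c * n
    rw [hlog]
  have eV : P.V = s + h + 5 * ll n := by
    show gT c (Nat.log 2 (num w)) T * (dig (bs c (Nat.log 2 (num w))) T 0 +
      dig (bs c (Nat.log 2 (num w))) T 2 + 5 * ll (Nat.log 2 (num w))) = _
    rw [hlog, hgT, d0, d2, one_mul]
  have ez : P.z = z := by
    show gT c (Nat.log 2 (num w)) T * dig (bs c (Nat.log 2 (num w))) T 4 = z
    rw [hlog, hgT, d4, one_mul]
  rw [hlog, ehT] at hadm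
  have hmono : ∀ i, ∀ j, i ≤ j → j ≤ K → τ i ≤ τ j := by
    intro i j hij
    induction j, hij using Nat.le_induction with
    | base => exact fun _ => le_rfl
    | succ j _ ih => exact fun hj => (ih (by omega)).trans (hpart j (by omega)).1
  have hr : ∀ i ≤ K, τ i ≤ r := fun i hi => by
    rw [← hτK]
    exact hmono i K hi le_rfl
  rw [← eS, ← eZ] at hfit
  rw [← eZ] at hpart hdesc
  rw [← eS] at hdesc
  -- the configurations
  set C : ℕ → ℕ := fun i => if i = K then 0 else if τ i = 0 then 1 else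
    cn P (A.conf w y g (τ i)).1 (D i) with hC
  have hCK : C K = 0 := by
    rw [hC]
    exact if_pos rfl
  have hC1 : ∀ i < K, τ i = 0 → C i = 1 := by
    intro i hi h0
    simp only [hC]
    rw [if_neg (by omega), if_pos h0]
  have hC2 : ∀ i < K, τ i ≠ 0 → C i = cn P (A.conf w y g (τ i)).1 (D i) := by
    intro i hi h0
    simp only [hC]
    rw [if_neg (by omega), if_neg h0]
  have hq : ∀ i ≤ K, (A.conf w y g (τ i)).1.length ≤ P.S := fun i hi => (hfit _ (hr i hi)).1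
  have hpos : ∀ i, τ i ≠ 0 → 0 < i := by
    intro i h0
    rcases Nat.eq_zero_or_pos i with h1 | h1
    · rw [h1] at h0
      exact absurd hτ0 h0
    · exact h1
  have hcz : 2 ≤ P.cz := by
    unfold Prm.cz
    omega
  have hClt : ∀ i ≤ K, C i < P.cz := by
    intro i hi
    rcases Nat.lt_or_ge i K with h1 | h1
    · by_cases h0 : τ i = 0
      · rw [hC1 i h1 h0]
        omega
      · rw [hC2 i h1 h0]
        exact cn_lt (hq i hi) (by
          rw [ez]
          exact (hdesc i (hpos i h0) h1).1)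
    · have : i = K := by omega
      rw [this, hCK]
      omega
  have hstart : A.start.length ≤ P.S := (hfit 0 (Nat.zero_le _)).1
  have hcq : P.cq 1 ≠ 0 := by
    unfold Prm.cq
    rw [eq01, if_pos rfl, ifz_ne one_ne_zero, hP.hst, capN_num hstart]
    exact (num_pos _).ne'
  have hrep : ∀ i < K, C i ≠ 0 ∧ Rep A w y P (C i) (A.conf w y g (τ i)) := by
    intro i hi
    by_cases h0 : τ i = 0
    · rw [hC1 i hi h0, h0]
      exact ⟨one_ne_zero, rep_start hP hcq⟩
    · have h1 := hpos i h0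
      rw [hC2 i hi h0]
      refine ⟨by have := (cn_ne (P := P) (q := (A.conf w y g (τ i)).1) (D := D i)).2; omega,
        Or.inr ⟨by have := (cn_ne (P := P) (q := (A.conf w y g (τ i)).1) (D := D i)).2; omega,
        (cn_cq (hq i hi.le)).symm, hq i hi.le, fun j hj => conf_ro A w y g hj _,
        fun j hj hj2 => ?_⟩⟩
      by_cases h2 : P.cl (cn P (A.conf w y g (τ i)).1 (D i)) (num j) = 0
      · exact Or.inl h2
      · obtain ⟨v, hv⟩ := says_of_cl hDEC hE hPx hPy (hq i hi.le) h2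
        right
        rw [cl_says hDEC hE hPx hPy (hq i hi.le) hv, ((hdesc i h1 hi).2 j v hj hj2 hv).1]
  have hknown : ∀ i < K, ∀ (t : ℕ) (j : List Bool), A.Known E w y g P.Z (τ i) (D i) t j →
      KnownN A w y g P (C i) (τ i) t j := by
    intro i hi t j hk
    by_cases h0 : τ i = 0
    · rw [hC1 i hi h0]
      refine Or.inr (Or.inl ?_)
      unfold Prm.cl
      rw [eq01, if_pos rfl, ifz_ne one_ne_zero]
      exact one_ne_zero
    · rcases hk with hk | hk | ⟨v, hk⟩ | hk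
      · exact absurd hk h0
      · exact Or.inl hk
      · refine Or.inr (Or.inl ?_)
        rw [hC2 i hi h0, cl_says hDEC hE hPx hPy (hq i hi.le) hk]
        exact (num_pos v).ne'
      · exact Or.inr (Or.inr hk)
  have hedge : ∀ i < K, edge P (FF Q n h P) (C i) (C (i + 1)) ≠ 0 := by
    intro i hi
    obtain ⟨p1, p2, p3, p4, p5⟩ := hpart i hi
    by_cases hspec : i + 1 < K ∧ τ (i + 1) = 0
    · rw [hC1 i hi (by omega), hC1 (i + 1) hspec.1 hspec.2]
      unfold edge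
      rw [eq01, if_pos rfl]
      omega
    have hd : τ (i + 1) - τ i ≤ 2 ^ h * (x + 1) := by omega
    refine hEDC A w y P hP h5 (FF Q n h P) x g r (τ i) (τ (i + 1)) (C i) (C (i + 1)) ?_ p1
      (hr _ (by omega)) hfit p3 (by rw [eu]; exact p4) ?_ ?_ (hrep i hi).1 (hrep i hi).2
      (fun t ht1 ht2 => hknown i hi t _ (p5 t ht1 ht2)) ?_ ?_
    · intro c' d' Y τ' a' _ _ hT' hτ' hch
      refine FF_complete Q hSIL hadm hT' (hτ'.trans hd) hch ?_
      rw [eV]
      exact q9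
    · rw [eS, eu, eV]
      refine le_trans ?_ q7
      gcongr
    · rw [eV]
      exact lt_of_le_of_lt hd q8
    · intro h0
      have : i + 1 = K := by
        by_contra hne
        exact (hrep (i + 1) (by omega)).1 h0
      rw [this]
      exact ⟨hτK, hacc⟩
    · intro h0
      have h1 : i + 1 < K := by
        rcases Nat.lt_or_ge (i + 1) K with h1 | h1
        · exact h1
        · have : i + 1 = K := by omega
          rw [this] at h0
          exact absurd hCK h0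
      have h2 : τ (i + 1) ≠ 0 := fun h => hspec ⟨h1, h⟩
      refine ⟨?_, (hrep (i + 1) h1).2, fun j hj hj2 hne => ?_⟩
      · rw [hC2 (i + 1) h1 h2]
        exact cn_ne.1
      · rw [hC2 (i + 1) h1 h2] at hne
        obtain ⟨v, hv⟩ := says_of_cl hDEC hE hPx hPy (hq (i + 1) (by omega)) hne
        have h3 := ((hdesc (i + 1) (by omega) h1).2 j v hj hj2 hv).2
        exact hknown i hi _ _ h3
  have hrc := hRCC (edge P (FF Q n h P)) P.cz k (fun c' => by
      unfold edge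
      rw [eq01, if_pos rfl]
      omega) K C hK hClt hedge
  rw [hC1 0 hK0 hτ0, hCK] at hrc
  refine ⟨T, ?_, ?_⟩
  · unfold NF
    rw [hlog]
    exact tab_lt hlt
  · unfold acc
    rw [hlog, ehT, ekT, hgT, one_mul]
    exact mul_ne_zero (lt_ne.2 hcq) hrc

/-- The parts of the proof. -/
structure Parts : Prop where
  cod : COD_stmt
  snd : SND_stmt
  cmp : CMP_stmt
  sil : SIL_stmt
  dec : DEC_stmt
  eds : EDS_stmt
  rcs : RCS_stmt
  rcc : RCC_stmt
  edc : EDC_stmt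
  lsw : LSW_stmt
  lse : LSE_stmt
  prm : PRM_stmt
  par : PAR_stmt

theorem exists_good (Q : Sim) (H : Parts) (c : ℕ) (A : NBM) (E : Decomp) (C : ℝ) : ∃ e n₀ : ℕ,
    ∀ w y : List Bool, n₀ ≤ w.length →
    (∀ T < NF c (num w), acc Q c e (num w) (num y) T ≠ 0 → ∃ g r, A.AcceptsAt w y g r) ∧
    (A.Within E c C w y → ∃ T < NF c (num w), acc Q c e (num w) (num y) T ≠ 0) := by
  obtain ⟨cd, c₀, hcd⟩ := H.cod A E
  obtain ⟨e, he⟩ := exists_cdeN cd
  obtain ⟨n₀, hn₀⟩ := eventually_atTop.1 (ev_cod c₀)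
  obtain ⟨n₁, hn₁⟩ := eventually_atTop.1 (H.par C c)
  refine ⟨e, n₀ + n₁, fun w y hw => ?_⟩
  have hlog : Nat.log 2 (num w) = w.length := Pool.Agent.Helper65.LinSpace.log_num w
  have hCod : ∀ T, Cod A w y (Pool.Agent.Helper81.Sus2.prm c e (num w) (num y) T) ∧
      CodE E (Pool.Agent.Helper81.Sus2.prm c e (num w) (num y) T) := by
    intro T
    obtain ⟨_, _, _, _, h5, h6⟩ := H.prm.2.2 c e (num w) (num y) T
    rw [hlog] at h5 h6
    obtain ⟨g1, g2, g3⟩ := hn₀ w.length (by omega) _ h5 _ h6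
    obtain ⟨g4, g5⟩ := g3 (num w) hlog
    refine hcd w y _ he rfl rfl ?_ ?_ g4 g5
    · show _ ≤ LW (Nat.log 2 (num w))
      rw [hlog]
      exact g1
    · show c₀ + LW (Nat.log 2 (num w)) + _ + _ + 8 ≤ 2 ^ (2 * ll (Nat.log 2 (num w)))
      rw [hlog]
      exact g2
  refine ⟨fun T _ hT => sound Q H.sil H.eds H.rcs H.prm (hCod T).1 hT, ?_⟩
  rintro ⟨g, r, s, a, x, h, z, k, K, τ, D, hacc, hfit, hτ0, hτK, hK0, hK, hpart, hdesc, b1, b2,
    b3, b4⟩
  obtain ⟨q1, q2, q3, q4, q5, q6, q7, q8, q9⟩ := hn₁ w.length (by omega) s a x h z k b1 b2 b3 b4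
  exact complete Q H.sil H.dec H.edc H.rcc H.prm (fun T => (hCod T).1) (fun T => (hCod T).2)
    hacc hfit hτ0 hτK hK0 hK hpart hdesc q1 q2 q3 q4 q5 q6 q7 q8 q9

/-- **Average-case hardness for machines with messages and descriptions of the memory.** -/
theorem sus_main (Q : Sim) (H : Parts) (c : ℕ) :
    ∃ (L : Set (List Bool)) (s : ℕ → List Bool), DLINSPACE L ∧
      (∀ n, (s n).length = n) ∧
      (∀ w, w ∈ L ↔ Odd ((List.zipWith and (s w.length) w).count true)) ∧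
      ∀ (A : NBM) (E : Decomp) (C : ℝ), ∃ c' : ℝ, ∀ (n : ℕ) (α : List Bool), ∀ M,
        M = L ∨ M = Lᶜ →
        ({w : List Bool | w.length = n ∧
          (Alt true (c * n) (fun v => ∃ g r, A.AcceptsAt w (α ++ v) g r) → w ∈ M) ∧
          (w ∈ M → Alt true (c * n) fun v => A.Within E c C w (α ++ v))}.ncard : ℝ) ≤
          2 ^ n / 2 + c' * ((min α.length (n - α.length) : ℕ) + 1) *
            2 ^ (((n : ℝ) + α.length) / 2) := by
  obtain ⟨L, s, h1, h2, h3, h4⟩ := Pool.Agent.Helper78.Gen2.alt_main (acc Q c) (NF c)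
    (LS.acc Q H.lsw H.lse H.prm c) (LS.NF c) c
  refine ⟨L, s, h1, h2, h3, fun A E C => ?_⟩
  have h := h4 (fun w y => ∃ g r, A.AcceptsAt w y g r) (A.Within E c C)
    (exists_good Q H c A E C)
  simp only [Pool.Agent.Helper28.Few.alt_iff] at h
  exact h

/-- Languages accepted by machines with messages and with descriptions of the memory are in linear
space. -/
theorem sus_lin (Q : Sim) (H : Parts) (c : ℕ) (A : NBM) (E : Decomp) (L : Set (List Bool)) (C : ℝ)
    (h1 : ∀ w, Alt true (c * w.length) (fun v => ∃ g r, A.AcceptsAt w v g r) → w ∈ L)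
    (h2 : ∀ w ∈ L, Alt true (c * w.length) (A.Within E c C w)) : DLINSPACE L :=
  Pool.Agent.Helper78.Gen2.alt_lin (acc Q c) (NF c) (LS.acc Q H.lsw H.lse H.prm c) (LS.NF c) c L
    (fun w y => ∃ g r, A.AcceptsAt w y g r) (A.Within E c C) (exists_good Q H c A E C)
    (fun w h => h1 w ((Pool.Agent.Helper28.Few.alt_iff _ _ _).1 h))
    (fun w hw => (Pool.Agent.Helper28.Few.alt_iff _ _ _).2 (h2 w hw))

end Pool.Agent.Helper28.Sus2
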